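import Pool.Agent.BLP.StmtsA
import Pool.Agent.BLP.StmtsM

/-!
# Squad BLP, row M_REP: the last-passage value is a measurable function of the values at rational times
-/

set_option autoImplicit false

namespace Pool.Agent.BLP.H79

open MeasureTheory ProbabilityTheory Filter Topology Finset
open scoped ENNReal

noncomputable section

/-- the extension of a vector of positions -/
def ext {m n : ℤ} (v : ↥(Finset.Icc m n) → ℚ) (r : ℤ) : ℚ :=
  if h : r ∈ Finset.Icc m n then (if r = n then 1 else v ⟨r, h⟩) else if r < m then 0 else 1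

theorem ext_lt {m n : ℤ} (v : ↥(Finset.Icc m n) → ℚ) {r : ℤ} (h : r < m) : ext v r = 0 := by
  unfold ext
  rw [dif_neg (by rw [Finset.mem_Icc]; omega), if_pos h]

theorem ext_ge {m n : ℤ} (hmn : m ≤ n) (v : ↥(Finset.Icc m n) → ℚ) {r : ℤ} (h : n ≤ r) :
    ext v r = 1 := by
  unfold ext
  split_ifs with h1 h2 h3
  · rfl
  · rw [Finset.mem_Icc] at h1; omega
  · omega
  · rfl

theorem ext_mid {m n : ℤ} (v : ↥(Finset.Icc m n) → ℚ) {r : ℤ} (h : r ∈ Finset.Icc m n)
    (hn : r ≠ n) : ext v r = v ⟨r, h⟩ := by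
  unfold ext
  rw [dif_pos h, if_neg hn]

/-- the energy as a function of the values at rational times -/
def En' {m n : ℤ} (s t : ℚ) (v : ↥(Finset.Icc m n) → ℚ) (f : ↥(Finset.Icc m n) → ℚ → ℝ) : ℝ :=
  ∑ r : ↥(Finset.Icc m n), (f r (s + ext v r * (t - s)) - f r (s + ext v ((r : ℤ) - 1) * (t - s)))

theorem En'_meas {m n : ℤ} (s t : ℚ) (v : ↥(Finset.Icc m n) → ℚ) :
    Measurable (fun f : ↥(Finset.Icc m n) → ℚ → ℝ => En' s t v f) := by
  unfold En'
  have key : ∀ (r : ↥(Finset.Icc m n)) (x : ℚ),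
      Measurable (fun f : ↥(Finset.Icc m n) → ℚ → ℝ => f r x) := fun r x =>
    (measurable_pi_apply x).comp (measurable_pi_apply r)
  exact Finset.measurable_sum _ fun r _ => (key r _).sub (key r _)

theorem En'_eq {m n : ℤ} (s t : ℚ) (v : ↥(Finset.Icc m n) → ℚ) (b : Env) :
    En' s t v (fun r q => b r q) = En b (fun r => (s : ℝ) + (ext v r : ℝ) * (t - s)) m n := by
  unfold En' En
  rw [← Finset.sum_coe_sort (Finset.Icc m n)]
  refine Finset.sum_congr rfl fun r _ => ?_
  push_cast
  rfl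

theorem m_rep (hBdd : BddStmt) (hRat : RatStmt) : RepStmt := by
  intro m n s t hmn hst
  have hst' : (s : ℝ) ≤ t := by exact_mod_cast hst
  let I : Type := {v : ↥(Finset.Icc m n) → ℚ // ∀ r, m ≤ r → r ≤ n → ext v (r - 1) ≤ ext v r}
  refine ⟨fun f => ⨆ v : I, En' s t v.1 f, ?_, ?_⟩
  · exact Measurable.iSup fun v => En'_meas s t v.1
  · intro b hb
    obtain ⟨-, h2, h3⟩ := hBdd b hb m n s t hmn hst'
    have hpa : ∀ v : I, Pa m s n t (fun r => (s : ℝ) + (ext v.1 r : ℝ) * (t - s)) := by
      intro v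
      refine ⟨?_, ?_, ?_⟩
      · show (s : ℝ) + (ext v.1 (m - 1) : ℝ) * (t - s) = s
        rw [ext_lt v.1 (by omega)]
        push_cast
        ring
      · show (s : ℝ) + (ext v.1 n : ℝ) * (t - s) = t
        rw [ext_ge hmn v.1 le_rfl]
        push_cast
        ring
      · intro r hr hr'
        have h4 : ((ext v.1 (r - 1) : ℚ) : ℝ) ≤ ((ext v.1 r : ℚ) : ℝ) := by
          exact_mod_cast v.2 r hr hr'
        have h5 := mul_le_mul_of_nonneg_right h4 (sub_nonneg.mpr hst')
        show (s : ℝ) + (ext v.1 (r - 1) : ℝ) * (t - s) ≤ (s : ℝ) + (ext v.1 r : ℝ) * (t - s)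
        linarith
    have hle : ∀ v : I, En' s t v.1 (fun r q => b r q) ≤ L b m s n t := by
      intro v
      rw [En'_eq]
      exact h2 _ (hpa v)
    have hbd : BddAbove (Set.range fun v : I => En' s t v.1 (fun r q => b r q)) :=
      ⟨L b m s n t, by rintro _ ⟨v, rfl⟩; exact hle v⟩
    have hne : Nonempty I := by
      refine ⟨⟨fun _ => 1, ?_⟩⟩
      intro r hr hr'
      have h1 : ext (fun _ : ↥(Finset.Icc m n) => (1 : ℚ)) r = 1 := by
        by_cases h : r = n
        · rw [h]; exact ext_ge hmn _ le_rfl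
        · exact ext_mid _ (Finset.mem_Icc.mpr ⟨hr, hr'⟩) h
      rw [h1]
      unfold ext
      split_ifs <;> norm_num
    apply le_antisymm
    · refine le_of_forall_lt fun C hC => ?_
      obtain ⟨q, -, hq0, hq1, hqm, hqC⟩ := hRat b hb m n s t C hmn hst' hC
      let v : ↥(Finset.Icc m n) → ℚ := fun r => q r
      have hv : ∀ r, r ≤ n → ext v r = q r := by
        intro r hr
        by_cases h1 : r < m
        · rw [ext_lt v h1, hq0 r h1]
        · by_cases h2 : r = n
          · rw [h2, ext_ge hmn v le_rfl, hq1 n le_rfl]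
          · exact ext_mid v (Finset.mem_Icc.mpr ⟨by omega, hr⟩) h2
      have hvv : ∀ r, m ≤ r → r ≤ n → ext v (r - 1) ≤ ext v r := by
        intro r hr hr'
        rw [hv _ (by omega), hv _ hr']
        exact hqm r hr hr'
      refine lt_of_lt_of_le ?_ (le_ciSup hbd ⟨v, hvv⟩)
      show C < En' s t v (fun r q => b r q)
      rw [En'_eq]
      have h6 : En b (fun r => (s : ℝ) + (ext v r : ℝ) * (t - s)) m n =
          En b (fun r => (s : ℝ) + (q r : ℝ) * (t - s)) m n := by
        unfold En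
        refine Finset.sum_congr rfl fun r hr => ?_
        rw [Finset.mem_Icc] at hr
        beta_reduce
        rw [hv r hr.2, hv (r - 1) (by omega)]
      rw [h6]
      exact hqC
    · exact ciSup_le hle

end

end Pool.Agent.BLP.H79
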